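import Pool.Agent.H337R2.LZ.V1

/-!
# The potential of the zeta part on the poles
-/

open Pool.Agent.H337R2 Pool.Agent.LZ

namespace Pool.Agent.Q203.LQ

set_option autoImplicit false

theorem chk1 : chk 4 V1.lF 274928013360000000000 4 25 (-480) = true := by decide +kernel

theorem chk2 : chk 4 V1.lF 274928013360000000000 4 25 (-380) = true := by decide +kernel

theorem chk3 : chk 4 V1.lF 274928013360000000000 4 25 (-280) = true := by decide +kernel

theorem chk4 : chk 4 V1.lF 274928013360000000000 4 25 (-180) = true := by decide +kernel

theorem FN_neg (w : ℝ) (h0 : -120 ≤ w) (h1 : w ≤ -20) : FN w ≤ 647 / 10 := by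
  have hE : EF 3063060 4 V1.lF w ≤ (22439 : ℝ) / 1000 := by
    rcases le_total w (-95) with k1 | k1
    · exact EF_le (Dc := 3063060) (M := 4) (l := V1.lF) (A := 274928013360000000000) (by norm_num) (by norm_num)
        (by norm_num) _ (by norm_num) (st := 4) (c := 25) (by norm_num) (x0 := -480) chk1 w
        (by norm_num; linarith) (by norm_num; linarith)
    rcases le_total w (-70) with k2 | k2
    · exact EF_le (Dc := 3063060) (M := 4) (l := V1.lF) (A := 274928013360000000000) (by norm_num) (by norm_num)
        (by norm_num) _ (by norm_num) (st := 4) (c := 25) (by norm_num) (x0 := -380) chk2 w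
        (by norm_num; linarith) (by norm_num; linarith)
    rcases le_total w (-45) with k3 | k3
    · exact EF_le (Dc := 3063060) (M := 4) (l := V1.lF) (A := 274928013360000000000) (by norm_num) (by norm_num)
        (by norm_num) _ (by norm_num) (st := 4) (c := 25) (by norm_num) (x0 := -280) chk3 w
        (by norm_num; linarith) (by norm_num; linarith)
    · exact EF_le (Dc := 3063060) (M := 4) (l := V1.lF) (A := 274928013360000000000) (by norm_num) (by norm_num)
        (by norm_num) _ (by norm_num) (st := 4) (c := 25) (by norm_num) (x0 := -180) chk4 w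
        (by norm_num; linarith) (by norm_num; linarith)
  rw [V1.FN_eq]
  linarith [V1.const_bounds.2]

end Pool.Agent.Q203.LQ
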