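import Pool.Agent.H337R2.LZ.Defs

/-!
# The determinant has degree at most half of its size along a line

`DD n (a x) (b x)` is a polynomial of degree at most `7 n` in `x`: the coefficients of `α` and of `β`
come from the same functional, so a column operation removes `x` from half of the columns.
-/

open Polynomial Pool.Agent.H337R2 Pool.Agent.LZ

namespace Pool.Agent.Q203.LQ

noncomputable section

set_option autoImplicit false

lemma det_natDegree_le (N : ℕ) (M : Matrix (Fin N) (Fin N) ℚ[X]) (d : ℕ → ℕ)
    (h : ∀ i j : Fin N, (M i j).natDegree ≤ d j) : M.det.natDegree ≤ ∑ j ∈ Finset.range N, d j := by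
  rw [Matrix.det_apply]
  apply Polynomial.natDegree_sum_le_of_forall_le
  intro σ _
  have h1 : (∏ i : Fin N, M (σ i) i).natDegree ≤ ∑ j ∈ Finset.range N, d j := by
    refine (Polynomial.natDegree_prod_le _ _).trans ?_
    refine (Finset.sum_le_sum fun i _ => h (σ i) i).trans (le_of_eq ?_)
    exact Fin.sum_univ_eq_sum_range (fun j => d j) N
  rcases Int.units_eq_one_or (Equiv.Perm.sign σ) with hσ | hσ
  · rw [hσ, one_smul]
    exact h1
  · rw [hσ, Units.neg_smul, one_smul, Polynomial.natDegree_neg]
    exact h1

lemma sum_lo (m : ℕ) : ∑ j ∈ Finset.range (2 * m), (if j < m then 1 else 0) = m := by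
  rw [two_mul, Finset.sum_range_add]
  have h1 : ∑ j ∈ Finset.range m, (if j < m then 1 else 0) = m := by
    rw [Finset.sum_congr rfl (fun j hj => if_pos (Finset.mem_range.1 hj)), Finset.sum_const, Finset.card_range,
      smul_eq_mul, mul_one]
  have h2 : ∑ j ∈ Finset.range m, (if m + j < m then 1 else 0) = 0 :=
    Finset.sum_eq_zero fun j _ => if_neg (by omega)
  rw [h1, h2, add_zero]

lemma sum_hi (m : ℕ) : ∑ j ∈ Finset.range (2 * m), (if j < m then 0 else 1) = m := by
  rw [two_mul, Finset.sum_range_add]
  have h1 : ∑ j ∈ Finset.range m, (if j < m then 0 else 1) = 0 :=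
    Finset.sum_eq_zero fun j hj => if_pos (Finset.mem_range.1 hj)
  have h2 : ∑ j ∈ Finset.range m, (if m + j < m then 0 else 1) = m := by
    rw [Finset.sum_congr rfl (fun j _ => if_neg (by omega : ¬ m + j < m)), Finset.sum_const, Finset.card_range,
      smul_eq_mul, mul_one]
  rw [h1, h2, zero_add]

lemma natDegree_lin (u v : ℚ) : (C u + C v * X : ℚ[X]).natDegree ≤ 1 := by
  refine (Polynomial.natDegree_add_le _ _).trans (max_le ?_ ?_)
  · rw [Polynomial.natDegree_C]; omega
  · exact (Polynomial.natDegree_C_mul_le _ _).trans Polynomial.natDegree_X_le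

lemma eval_det (N : ℕ) (M : Matrix (Fin N) (Fin N) ℚ[X]) (x : ℚ) :
    M.det.eval x = (M.map (Polynomial.eval x)).det := by
  have := RingHom.map_det (Polynomial.evalRingHom x) M
  rw [Polynomial.coe_evalRingHom] at this
  exact this

theorem md_poly (m : ℕ) (A B R : ℕ → ℕ → ℚ) (a b : ℚ) : ∃ P : ℚ[X], P.natDegree ≤ m ∧ ∀ x : ℚ,
    P.eval x = (Matrix.of fun i j : Fin (2 * m) => if j.1 < m then A i.1 j.1 + R i.1 j.1 * (a * x)
      else B i.1 (j.1 - m) + R i.1 (j.1 - m) * (b * x)).det := by
  by_cases hb : b = 0
  · subst hb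
    refine ⟨(Matrix.of fun i j : Fin (2 * m) => if j.1 < m then C (A i.1 j.1) + C (R i.1 j.1 * a) * X
      else C (B i.1 (j.1 - m))).det, ?_, fun x => ?_⟩
    · refine (det_natDegree_le (2 * m) _ (fun j => if j < m then 1 else 0) ?_).trans (sum_lo m).le
      intro i j
      rw [Matrix.of_apply]
      split_ifs with h
      · exact natDegree_lin _ _
      · exact (Polynomial.natDegree_C _).le
    · rw [eval_det]
      congr 1
      ext i j
      rw [Matrix.map_apply, Matrix.of_apply, Matrix.of_apply]
      split_ifs with h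
      · simp only [eval_add, eval_mul, eval_C, eval_X]
        ring
      · simp only [eval_C]
        ring
  · -- the column operation
    set T : Matrix (Fin (2 * m)) (Fin (2 * m)) ℚ := Matrix.of fun i j =>
      if j.1 < m then (if i = j then b else if i.1 = j.1 + m then -a else 0) else (if i = j then 1 else 0) with hT
    have hTdet : T.det = b ^ m := by
      rw [Matrix.det_of_lowerTriangular T]
      · have h1 : ∀ i : Fin (2 * m), T i i = (fun k : ℕ => if k < m then b else 1) i.1 := by
          intro i
          rw [hT, Matrix.of_apply]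
          simp
        rw [Finset.prod_congr rfl fun i _ => h1 i,
          Fin.prod_univ_eq_prod_range (fun k : ℕ => if k < m then b else (1 : ℚ)) (2 * m), two_mul,
          Finset.prod_range_add]
        have h2 : ∏ k ∈ Finset.range m, (if k < m then b else (1 : ℚ)) = b ^ m := by
          rw [Finset.prod_congr rfl (fun k hk => if_pos (Finset.mem_range.1 hk)), Finset.prod_const,
            Finset.card_range]
        have h3 : ∏ k ∈ Finset.range m, (if m + k < m then b else (1 : ℚ)) = 1 :=
          Finset.prod_eq_one fun k _ => if_neg (by omega)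
        rw [h2, h3, mul_one]
      · intro i j hij
        have hij' : i < j := hij
        have h1 : i.1 < j.1 := hij'
        rw [hT, Matrix.of_apply]
        have h2 : ¬ i = j := fun h => by rw [h] at h1; omega
        have h3 : ¬ i.1 = j.1 + m := by omega
        simp only [if_neg h2, if_neg h3, ite_self]
    refine ⟨C ((b ^ m)⁻¹) * (Matrix.of fun i j : Fin (2 * m) => if j.1 < m then
        C (b * A i.1 j.1 - a * B i.1 j.1)
      else C (B i.1 (j.1 - m)) + C (R i.1 (j.1 - m) * b) * X).det, ?_, fun x => ?_⟩
    · refine (Polynomial.natDegree_C_mul_le _ _).trans ?_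
      refine (det_natDegree_le (2 * m) _ (fun j => if j < m then 0 else 1) ?_).trans (sum_hi m).le
      intro i j
      rw [Matrix.of_apply]
      split_ifs with h
      · exact (Polynomial.natDegree_C _).le
      · exact natDegree_lin _ _
    · rw [Polynomial.eval_mul, Polynomial.eval_C, eval_det]
      have hmul : ((Matrix.of fun i j : Fin (2 * m) => if j.1 < m then
            C (b * A i.1 j.1 - a * B i.1 j.1)
          else C (B i.1 (j.1 - m)) + C (R i.1 (j.1 - m) * b) * X).map (Polynomial.eval x)) =
          (Matrix.of fun i j : Fin (2 * m) => if j.1 < m then A i.1 j.1 + R i.1 j.1 * (a * x)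
            else B i.1 (j.1 - m) + R i.1 (j.1 - m) * (b * x)) * T := by
        ext i j
        rw [Matrix.map_apply, Matrix.of_apply, Matrix.mul_apply]
        by_cases hj : j.1 < m
        · rw [if_pos hj]
          have hj2 : j.1 + m < 2 * m := by omega
          rw [Fintype.sum_eq_add j ⟨j.1 + m, hj2⟩ (by intro h; have := congrArg Fin.val h; simp at this; omega)
            (by
              intro k hk
              have hk2 : ¬ k.1 = j.1 + m := fun h => hk.2 (Fin.ext h)
              rw [hT, Matrix.of_apply, Matrix.of_apply, if_pos hj, if_neg hk.1, if_neg hk2, mul_zero])]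
          rw [hT, Matrix.of_apply, Matrix.of_apply, Matrix.of_apply, Matrix.of_apply, if_pos hj, if_pos hj, if_pos rfl,
            if_pos hj, if_neg (show ¬ ((⟨j.1 + m, hj2⟩ : Fin (2 * m)) : ℕ) < m by simp)]
          have h1 : ¬ ((⟨j.1 + m, hj2⟩ : Fin (2 * m)) = j) := by
            intro h
            have := congrArg Fin.val h
            simp at this
            omega
          rw [if_neg h1, if_pos rfl]
          simp only [eval_C, Nat.add_sub_cancel]
          ring
        · rw [if_neg hj]
          rw [Fintype.sum_eq_single j (by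
              intro k hk
              rw [hT, Matrix.of_apply, Matrix.of_apply, if_neg hj, if_neg hk, mul_zero])]
          rw [hT, Matrix.of_apply, Matrix.of_apply, if_neg hj, if_neg hj, if_pos rfl, mul_one]
          simp only [eval_add, eval_mul, eval_C, eval_X]
          ring
      rw [hmul, Matrix.det_mul, hTdet]
      have hbm : b ^ m ≠ 0 := pow_ne_zero _ hb
      rw [mul_left_comm, inv_mul_cancel₀ hbm, mul_one]

lemma AL_affine (n : ℕ) (α : ℚ) (Q : ℚ[X]) : AL n α Q = AL n 0 Q + rho n (PL n * Q) 3 * α := by
  rw [AL_apply, AL_apply]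
  unfold xa
  ring

lemma BL_affine (n : ℕ) (β : ℚ) (Q : ℚ[X]) : BL n β Q = BL n 0 Q + rho n (PL n * Q) 3 * β := by
  rw [BL_apply, BL_apply]
  unfold xb
  ring

/-- the determinant on a line through the origin is a polynomial of degree at most `7 n` -/
theorem det_poly (n : ℕ) (a b : ℚ) : ∃ P : ℚ[X], P.natDegree ≤ 7 * n ∧ ∀ x : ℚ,
    P.eval x = DD n (a * x) (b * x) := by
  obtain ⟨P, hP1, hP2⟩ := md_poly (7 * n) (fun i j => AL n 0 (X ^ (i + j))) (fun i j => BL n 0 (X ^ (i + j)))
    (fun i j => rho n (PL n * X ^ (i + j)) 3) a b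
  refine ⟨P, hP1, fun x => ?_⟩
  rw [hP2 x]
  unfold DD
  show _ = Pool.Agent.H574R2.D3.MD _ _ _
  unfold Pool.Agent.H574R2.D3.MD
  congr 1
  ext i j
  rw [Matrix.of_apply, Matrix.of_apply]
  split_ifs with h
  · rw [AL_affine n (a * x)]
  · rw [BL_affine n (b * x)]

end

end Pool.Agent.Q203.LQ
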