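import Pool.Agent.H337R2.LZ.C2
import Pool.Agent.H337R2.LZ.D3
import Pool.Agent.H337R2.LZ.D4
import Pool.Agent.H337R2.LZ.E1
import Pool.Agent.H337R2.LZ.E2
import Pool.Agent.H337R2.LZ.E4

/-!
# The p-adic size of the determinant when `|α|_p ≤ p³`, `|β|_p ≤ p`, `p ≤ 5 n`

All pole classes have at least two elements, so all of them are charged, and the estimates of the
coefficients of `α`, `β` have room for these factors.
-/

open Polynomial Pool.Agent.H337R2 Pool.Agent.LZ

namespace Pool.Agent.Q203.LQ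

noncomputable section

set_option autoImplicit false

lemma rho3_w {n p : ℕ} [Fact p.Prime] (hn : 1 ≤ n) (hp2 : 12 * n < p ^ 2) (E : ℚ[X]) (W : ℚ)
    (A : ℕ → ℚ) (hA : ∀ k, 0 ≤ A k) (hE : ∀ k ∈ sL n, PB p (p : ℚ) (A k) (TS (-(k : ℚ)) E)) (s : ℤ) (u : ℚ)
    (hu : padicNorm p u ≤ (p : ℚ) ^ (3 - s)) (hW : 0 ≤ W)
    (h : ∀ k ∈ sL n, (p : ℚ) ^ (-eL n p k - s) * A k ≤ W) :
    padicNorm p (rho n (PL n * E) 3 * u) ≤ W := by
  have hpp : p.Prime := Fact.out
  have hp0 : (p : ℚ) ≠ 0 := by exact_mod_cast hpp.ne_zero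
  have hpos : (0 : ℚ) < p := by exact_mod_cast hpp.pos
  unfold rho
  rw [Finset.sum_mul]
  apply padicNorm.sum_le' _ hW
  intro k hk
  rw [padicNorm.mul]
  refine le_trans ?_ (h k hk)
  have h1 := C1_pa (p := p) hn hp2 E hk (A k) (hA k) (hE k hk) 3
  calc _ ≤ ((p : ℚ) ^ (-eL n p k - (3 : ℕ) : ℤ) * A k) * (p : ℚ) ^ (3 - s) :=
        mul_le_mul h1 hu (padicNorm.nonneg _) (mul_nonneg (zpow_nonneg hpos.le _) (hA k))
    _ = (p : ℚ) ^ (-eL n p k - s) * A k := by
        rw [mul_right_comm, ← zpow_add₀ hp0]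
        congr 2
        push_cast
        ring

lemma QI_zero : QI 1 0 := ⟨one_pos, 0, by norm_num⟩

lemma xa_w {n p : ℕ} [Fact p.Prime] (hn : 1 ≤ n) (hp2 : 12 * n < p ^ 2) (α : ℚ)
    (hα : padicNorm p α ≤ (p : ℚ) ^ 3)
    (E : ℚ[X]) (W : ℚ) (hW : 0 ≤ W) (A : ℕ → ℚ) (hA : ∀ k, 0 ≤ A k)
    (hE : ∀ k ∈ sL n, PB p (p : ℚ) (A k) (TS (-(k : ℚ)) E))
    (hE1 : ∀ k ∈ sL n, PB p 1 1 (TS (-(k : ℚ)) E))
    (h : ∀ k ∈ sL n, (p : ℚ) ^ (-eL n p k) * A k ≤ W) :
    padicNorm p (xa n α (PL n * E)) ≤ W := by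
  have h0 := C2_xa (p := p) hn hp2 1 0 QI_zero E W hW A hA hE hE1 (fun k hk => Or.inl (h k hk))
  have h1 := rho3_w (p := p) hn hp2 E W A hA hE 0 α (by rw [sub_zero]; exact_mod_cast hα) hW (by
    intro k hk
    rw [sub_zero]
    exact h k hk)
  have e : xa n α (PL n * E) = ((1 : ℕ) : ℚ) * xa n 0 (PL n * E) + rho n (PL n * E) 3 * α := by
    unfold xa
    push_cast
    ring
  rw [e]
  exact padicNorm.nonarchimedean.trans (max_le h0 h1)

lemma xb_w {n p : ℕ} [Fact p.Prime] (hn : 1 ≤ n) (hp2 : 12 * n < p ^ 2) (β : ℚ)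
    (hβ : padicNorm p β ≤ (p : ℚ))
    (E : ℚ[X]) (W : ℚ) (hW : 0 ≤ W) (A : ℕ → ℚ) (hA : ∀ k, 0 ≤ A k)
    (hE : ∀ k ∈ sL n, PB p (p : ℚ) (A k) (TS (-(k : ℚ)) E))
    (hE1 : ∀ k ∈ sL n, PB p 1 1 (TS (-(k : ℚ)) E))
    (h : ∀ k ∈ sL n, (p : ℚ) ^ (-eL n p k - 2) * A k ≤ W) :
    padicNorm p (xb n β (PL n * E)) ≤ W := by
  have h0 := C2_xb (p := p) hn hp2 1 0 QI_zero E W hW A hA hE hE1 (fun k hk => Or.inl (h k hk))
  have h1 := rho3_w (p := p) hn hp2 E W A hA hE 2 β (by
    have : (3 - 2 : ℤ) = 1 := by norm_num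
    rw [this, zpow_one]; exact hβ) hW h
  have e : xb n β (PL n * E) = ((1 : ℕ) : ℚ) * xb n 0 (PL n * E) + rho n (PL n * E) 3 * β := by
    unfold xb
    push_cast
    ring
  rw [e]
  exact padicNorm.nonarchimedean.trans (max_le h0 h1)

theorem D3w {n p : ℕ} [Fact p.Prime] (hn : 1 ≤ n)
    (hp2 : 12 * n < p ^ 2) (α β : ℚ)
    (hα : padicNorm p α ≤ (p : ℚ) ^ 3) (hβ : padicNorm p β ≤ (p : ℚ)) (m : ℕ) (aN ay : ℤ) (g : ℕ → ℤ)
    (S : Finset ℕ) (h : ∀ k ∈ sL n, k % p ∈ S) :
    padicNorm p (MD (AL n α) (BL n β) m) ≤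
      (p : ℚ) ^ ((m : ℤ) * (aN + ay) + ∑ κ ∈ S, (TA (g κ) + TA (-eL n p κ - g κ - aN) +
        TA (-eL n p κ - 2 - g κ - ay))) := by
  have hpp : p.Prime := Fact.out
  have hp0 : (0 : ℚ) < p := by exact_mod_cast hpp.pos
  have hp1 : (1 : ℚ) ≤ p := by exact_mod_cast hpp.one_lt.le
  obtain ⟨κ, s, hs1, hs2, hs3⟩ := D3_pick S g 0 (2 * m)
  obtain ⟨κ', s', hs1', hs2', hs3'⟩ := D3_pick S (fun k => -eL n p k - g k) aN m
  obtain ⟨κ'', s'', hs1'', hs2'', hs3''⟩ := D3_pick S (fun k => -eL n p k - 2 - g k) ay m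
  -- the exponent of one entry
  have hexp : ∀ (b y : ℤ) (c d : ℕ), b - c - d ≤ y →
      (p : ℚ) ^ b * ((p : ℚ)⁻¹ ^ c * (p : ℚ)⁻¹ ^ d) ≤ (p : ℚ) ^ y := by
    intro b y c d hy
    have e : (p : ℚ) ^ b * ((p : ℚ)⁻¹ ^ c * (p : ℚ)⁻¹ ^ d) = (p : ℚ) ^ (b - c - d : ℤ) := by
      rw [zpow_sub₀ hp0.ne', zpow_sub₀ hp0.ne', zpow_natCast, zpow_natCast,
        inv_pow, inv_pow, div_eq_mul_inv, div_eq_mul_inv, mul_assoc]
    rw [e]
    exact zpow_le_zpow_right₀ hp1 hy
  have hmat := Pool.Agent.H574R2.D3.D3_A3 p (2 * m) (Matrix.of fun i j : Fin (2 * m) => (1 : ℚ) *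
      (if j.1 < m then AL n α (D3_ND κ i.1 * D3_ND κ' j.1)
      else BL n β (D3_ND κ i.1 * D3_ND κ'' (j.1 - m))))
    (fun i => (p : ℚ) ^ (s i)) (fun j => if j < m then (p : ℚ) ^ (s' j) else (p : ℚ) ^ (s'' (j - m)))
    (fun i => by positivity) (fun j => by split_ifs <;> positivity) (by
      intro i j
      rw [Matrix.of_apply, one_mul]
      by_cases hj : j.1 < m
      · rw [if_pos hj]
        simp only [if_pos hj]
        rw [AL_apply, ← zpow_add₀ hp0.ne']
        refine xa_w hn hp2 α hα _ _ (by positivity)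
          (fun k => (p : ℚ)⁻¹ ^ ((Finset.range i.1).filter fun l => κ l = k % p).card *
            (p : ℚ)⁻¹ ^ ((Finset.range j.1).filter fun l => κ' l = k % p).card)
          (fun k => by positivity) (fun k hk => ?_) (fun k hk => ?_) (fun k hk => ?_)
        · exact D3_NN_PB p k κ κ' i.1 j.1
        · exact D3_NN_PB1 p 1 le_rfl k κ κ' i.1 j.1
        · have h1 := h k hk
          have h2 := hs3 _ h1 i.1
          have h3 := hs3' _ h1 j.1
          rw [D3_eL_mod] at h3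
          exact hexp _ _ _ _ (by linarith)
      · rw [if_neg hj]
        simp only [if_neg hj]
        rw [BL_apply, ← zpow_add₀ hp0.ne']
        refine xb_w hn hp2 β hβ _ _ (by positivity)
          (fun k => (p : ℚ)⁻¹ ^ ((Finset.range i.1).filter fun l => κ l = k % p).card *
            (p : ℚ)⁻¹ ^ ((Finset.range (j.1 - m)).filter fun l => κ'' l = k % p).card)
          (fun k => by positivity) (fun k hk => ?_) (fun k hk => ?_) (fun k hk => ?_)
        · exact D3_NN_PB p k κ κ'' i.1 (j.1 - m)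
        · exact D3_NN_PB1 p 1 le_rfl k κ κ'' i.1 (j.1 - m)
        · have h1 := h k hk
          have h2 := hs3 _ h1 i.1
          have h3 := hs3'' _ h1 (j.1 - m)
          rw [D3_eL_mod] at h3
          exact hexp _ _ _ _ (by linarith))
  rw [D3_det_smul, one_pow, one_mul] at hmat
  refine le_trans hmat ?_
  have hcprod : ∏ j ∈ Finset.range (2 * m), (if j < m then (p : ℚ) ^ (s' j) else
      (p : ℚ) ^ (s'' (j - m))) = (p : ℚ) ^ (∑ j ∈ Finset.range m, s' j) *
      (p : ℚ) ^ (∑ j ∈ Finset.range m, s'' j) := by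
    rw [two_mul, Finset.prod_range_add,
      ← Pool.Agent.H574R2.D3.D3_prod_zpow (p : ℚ) hp0.ne' s' m,
      ← Pool.Agent.H574R2.D3.D3_prod_zpow (p : ℚ) hp0.ne' s'' m]
    congr 1
    · exact Finset.prod_congr rfl fun j hj => if_pos (Finset.mem_range.1 hj)
    · refine Finset.prod_congr rfl fun j _ => ?_
      rw [if_neg (by omega), Nat.add_sub_cancel_left]
  rw [hcprod, Pool.Agent.H574R2.D3.D3_prod_zpow (p : ℚ) hp0.ne' s (2 * m), ← zpow_add₀ hp0.ne',
    ← zpow_add₀ hp0.ne']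
  refine zpow_le_zpow_right₀ hp1 ?_
  rw [Finset.sum_add_distrib, Finset.sum_add_distrib]
  have h0 : ∑ k ∈ S, TA (g k - 0) = ∑ k ∈ S, TA (g k) := by
    refine Finset.sum_congr rfl fun k _ => by rw [sub_zero]
  rw [h0] at hs2
  linarith

/-- the estimate `D3_det` for a given number `D` -/
def DetB (n p : ℕ) (D : ℚ) : Prop := ∀ (aN ay : ℤ) (g : ℕ → ℤ) (S : Finset ℕ), S ⊆ Finset.range p →
    (∀ k ∈ sL n, k % p ∈ S ∨
      (padicNorm p (cL n) ≤ (p : ℚ) ^ aN ∧ padicNorm p (cL n) ≤ (p : ℚ) ^ ay ∧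
        ∀ k' ∈ sL n, k' ≠ k → ¬ (p : ℤ) ∣ (k' : ℤ) - k)) →
    padicNorm p D ≤ (p : ℚ) ^ (((7 * n : ℕ) : ℤ) * (aN + ay) + ∑ κ ∈ S, (TA (g κ) + TA (-eL n p κ - g κ - aN) +
        TA (-eL n p κ - 2 - g κ - ay)))

/-- integers -/
theorem DetB_int {n p : ℕ} [Fact p.Prime] (hn : 1 ≤ n) (hp2 : 12 * n < p ^ 2) (α β : ℚ)
    (hα : QI 1 α) (hβ : QI 1 β) : DetB n p (DD n α β) := by
  intro aN ay g S _ h
  have h1 := D3_det_of C2_xa C2_xb hn hp2 1 α β hα hβ (7 * n) aN ay g S h
  rw [Nat.cast_one, one_pow, one_mul] at h1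
  exact h1

/-- the larger range -/
theorem DetB_w {n p : ℕ} [Fact p.Prime] (hn : 1 ≤ n) (hp2 : 12 * n < p ^ 2) (hp5 : p ≤ 5 * n) (α β : ℚ)
    (hα : padicNorm p α ≤ (p : ℚ) ^ 3) (hβ : padicNorm p β ≤ (p : ℚ)) : DetB n p (DD n α β) := by
  intro aN ay g S _ h
  have hpp : p.Prime := Fact.out
  refine D3w hn hp2 α β hα hβ (7 * n) aN ay g S ?_
  intro k hk
  rcases h k hk with h1 | ⟨-, -, h1⟩
  · exact h1
  · exfalso
    have hk' := Finset.mem_Icc.1 hk
    rcases le_or_gt k (7 * n) with h2 | h2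
    · refine h1 (k + p) (Finset.mem_Icc.2 ⟨by omega, by omega⟩) (by have := hpp.pos; omega) ?_
      have : ((k + p : ℕ) : ℤ) - k = p := by push_cast; ring
      rw [this]
    · refine h1 (k - p) (Finset.mem_Icc.2 ⟨by omega, by omega⟩) (by have := hpp.pos; omega) ?_
      have : ((k - p : ℕ) : ℤ) - k = -(p : ℤ) := by omega
      rw [this]
      exact dvd_neg.mpr dvd_rfl

open E4aux in
/-- the cell estimate -/
theorem cellB (c : Cell) (hc : c.ok = true) (hx : c.full = true ∨ c.v0 ≤ c.u0) : ∃ K0 : ℝ, ∀ n : ℕ, 1 ≤ n →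
    ∀ p : ℕ, p.Prime → 12 * n < p ^ 2 →
    c.u0 * n < p * c.v0 → p * c.v1 ≤ c.u1 * n → ∀ D : ℚ, DetB n p D →
    ((padicNorm p D : ℚ) : ℝ) ≤ (p : ℝ) ^ ((c.AB.1 : ℝ) * n + c.AB.2 * p + K0) := by
  classical
  have hfin : ∀ {n p : ℕ} {D : ℚ} (_ : p.Prime) {z K : ℤ} (_ : padicNorm p D ≤ (p : ℚ) ^ z)
      (_ : z ≤ c.AB.1 * n + c.AB.2 * p + K),
      ((padicNorm p D : ℚ) : ℝ) ≤ (p : ℝ) ^ ((c.AB.1 : ℝ) * n + c.AB.2 * p + K) := by
    intro n p D hp z K h hz
    have h1 : ((padicNorm p D : ℚ) : ℝ) ≤ (((p : ℚ) ^ z : ℚ) : ℝ) := by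
      exact_mod_cast h
    refine h1.trans ?_
    rw [Rat.cast_zpow, Rat.cast_natCast, ← Real.rpow_intCast]
    refine Real.rpow_le_rpow_of_exponent_le (by exact_mod_cast hp.one_lt.le) ?_
    exact_mod_cast hz
  by_cases hfull : c.full = true
  · -- all classes charged
    refine ⟨((TB (c.lN - c.e0) : ℤ) : ℝ), ?_⟩
    intro n hn p hp hp2 h0 h1 D hD
    have : Fact p.Prime := ⟨hp⟩
    choose g hg using fun y => Pool.Agent.H574R2.D3.D1_split y
    have hly : c.ly = c.lN + 2 := by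
      have hc' := hc
      unfold Cell.ok at hc'
      simp only [hfull, if_true, Bool.and_eq_true, decide_eq_true_eq] at hc'
      exact hc'.2
    have hd := hD (-c.lN) (-c.ly)
      (fun κ => g (c.lN - eL n p κ)) (Finset.range p) (Finset.Subset.refl _)
      (fun k _ => Or.inl (Finset.mem_range.2 (Nat.mod_lt _ hp.pos)))
    refine hfin hp hd ?_
    have hs := E2_sum hc hn hp h0 h1 (fun κ => TA (g (c.lN - eL n p κ)) +
        TA (-eL n p κ - g (c.lN - eL n p κ) - -c.lN) +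
        TA (-eL n p κ - 2 - g (c.lN - eL n p κ) - -c.ly)) (TB (c.lN - c.e0)) (E4aux.TB_nonneg _)
    have hf : ∀ r, TA (g (c.lN - eL n p r)) +
        TA (-eL n p r - g (c.lN - eL n p r) - -c.lN) +
        TA (-eL n p r - 2 - g (c.lN - eL n p r) - -c.ly) ≤ TB (c.lN - eL n p r) := by
      intro r
      have h2 := hg (c.lN - eL n p r)
      have e1 : -eL n p r - g (c.lN - eL n p r) - -c.lN =
          c.lN - eL n p r - g (c.lN - eL n p r) := by ring
      have e2 : -eL n p r - 2 - g (c.lN - eL n p r) - -c.ly =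
          c.lN - eL n p r - g (c.lN - eL n p r) := by rw [hly]; ring
      rw [e1, e2]
      have h3 : TA (g (c.lN - eL n p r)) + 2 * TA (c.lN - eL n p r - g (c.lN - eL n p r)) ≤
          TB (c.lN - eL n p r) := h2
      linarith
    have hs' := hs (by
        have h2 := hf 0
        rw [E4_eL0 @E1_fl @E1_cnt hc hp.pos h0 h1] at h2 ⊢
        exact h2)
      (by
        intro r _ _
        have hcost : c.cost (eL n p r) ((cnt p (2 * n + 1) (12 * n) r : ℕ) : ℤ) =
            TB (c.lN - eL n p r) := by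
          unfold Cell.cost
          rw [if_pos hfull]
        rw [hcost]
        exact hf r)
    push_cast
    push_cast at hs'
    linarith
  · -- not full
    have hnf : c.full = false := by simpa using hfull
    have hx' : c.v0 ≤ c.u0 := by
      rcases hx with h | h
      · exact absurd h hfull
      · exact h
    refine ⟨((∑ d ∈ Finset.range 12, Fd c c.e0 (d : ℤ) : ℤ) : ℝ), ?_⟩
    intro n hn p hp hp2 h0 h1 D hD
    have : Fact p.Prime := ⟨hp⟩
    have hok : 0 < c.v0 ∧ c.lN ≤ (c.fl 10 : ℤ) + c.fl 9 + c.fl 8 - c.fl 2 ∧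
        c.ly ≤ (c.fl 10 : ℤ) + c.fl 9 + c.fl 8 - c.fl 2 := by
      have hc' := hc
      unfold Cell.ok at hc'
      simp only [hnf, Bool.and_eq_true, decide_eq_true_eq] at hc'
      have h2 := hc'.2
      simp only [Bool.false_eq_true, if_false, Bool.and_eq_true, decide_eq_true_eq] at h2
      refine ⟨?_, h2.1, h2.2⟩
      exact hc'.1.1.1.1.1.1.1.2
    obtain ⟨hv0, hlN, hly⟩ := hok
    have hnp : n < p := by
      have h2 : c.v0 * n < c.v0 * p := by
        calc c.v0 * n ≤ c.u0 * n := Nat.mul_le_mul_right _ hx'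
          _ < p * c.v0 := h0
          _ = c.v0 * p := Nat.mul_comm _ _
      exact Nat.lt_of_mul_lt_mul_left h2
    have f2 := E1_fl hc hp.pos h0 h1 (a := 2) (by decide)
    have f10 := E1_fl hc hp.pos h0 h1 (a := 10) (by decide)
    have f9 := E1_fl hc hp.pos h0 h1 (a := 9) (by decide)
    have f8 := E1_fl hc hp.pos h0 h1 (a := 8) (by decide)
    -- the shift
    let good : ℤ → ℕ → Prop := fun e d => d < 12 ∧ Fd c e (d : ℤ) ≤ c.cost e 2
    let g : ℕ → ℤ := fun κ => if h : ∃ d : ℕ, good (eL n p κ) d then ((Classical.choose h : ℕ) : ℤ) else 0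
    have hg12 : ∀ κ, ∃ d ∈ Finset.range 12, g κ = ((d : ℕ) : ℤ) := by
      intro κ
      by_cases h : ∃ d : ℕ, good (eL n p κ) d
      · refine ⟨Classical.choose h, Finset.mem_range.2 (Classical.choose_spec h).1, ?_⟩
        exact dif_pos h
      · exact ⟨0, by decide, dif_neg h⟩
    have hgood : ∀ κ, κ < p → Fd c (eL n p κ) (g κ) ≤ c.cost (eL n p κ) 2 := by
      intro κ hκ
      have hlow := E4_low @E1_cnt hnp hκ
      rw [f2, f10, f9, f8] at hlow
      have h0' : Fd c (eL n p κ) 0 ≤ 1000000 := by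
        unfold Fd
        have a1 : TA 0 ≤ 820 := TA_le (by norm_num)
        have a2 : TA (c.lN - eL n p κ - 0) ≤ 820 := TA_le (by linarith)
        have a3 : TA (c.ly - eL n p κ - 2 - 0) ≤ 820 := TA_le (by linarith)
        linarith
      have h : ∃ d : ℕ, good (eL n p κ) d := by
        have hcost : c.cost (eL n p κ) 2 = ((List.range 12).map fun d : ℕ => TA (d : ℤ) +
            TA (c.lN - eL n p κ - d) + TA (c.ly - eL n p κ - 2 - d)).foldl min 1000000 := by
          unfold Cell.cost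
          rw [if_neg hfull, if_pos le_rfl]
        rcases foldl_min_mem ((List.range 12).map fun d : ℕ => TA (d : ℤ) +
            TA (c.lN - eL n p κ - d) + TA (c.ly - eL n p κ - 2 - d)) 1000000 with h2 | h2
        · refine ⟨0, by norm_num, ?_⟩
          rw [hcost, h2]
          exact h0'
        · obtain ⟨d, hd, hd'⟩ := List.mem_map.1 h2
          refine ⟨d, List.mem_range.1 hd, ?_⟩
          rw [hcost, ← hd']
          exact le_rfl
      have h3 : g κ = ((Classical.choose h : ℕ) : ℤ) := dif_pos h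
      rw [h3]
      exact (Classical.choose_spec h).2
    set S : Finset ℕ := (Finset.range p).filter fun κ => 2 ≤ cnt p (2 * n + 1) (12 * n) κ with hS
    have hpnat : (1 : ℚ) ≤ (p : ℚ) := by exact_mod_cast hp.one_lt.le
    have hd := hD (-c.lN) (-c.ly) g S (Finset.filter_subset _ _)
      (by
        intro k hk
        by_cases hkS : k % p ∈ S
        · exact Or.inl hkS
        · right
          refine ⟨?_, ?_, ?_⟩
          · rw [cL_norm hp2, f2, f10, f9, f8]
            exact zpow_le_zpow_right₀ hpnat (by linarith)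
          · rw [cL_norm hp2, f2, f10, f9, f8]
            exact zpow_le_zpow_right₀ hpnat (by linarith)
          · intro k' hk' hne hdvd
            apply hkS
            rw [hS, Finset.mem_filter, Finset.mem_range]
            refine ⟨Nat.mod_lt _ hp.pos, ?_⟩
            have hkm : (p : ℤ) ∣ (k : ℤ) - ((k % p : ℕ) : ℤ) := by
              refine ⟨((k / p : ℕ) : ℤ), ?_⟩
              have := Nat.div_add_mod k p
              have h2 : (k : ℤ) = (p : ℤ) * ((k / p : ℕ) : ℤ) + ((k % p : ℕ) : ℤ) := by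
                exact_mod_cast this.symm
              linarith
            have hk'm : (p : ℤ) ∣ (k' : ℤ) - ((k % p : ℕ) : ℤ) := by
              have h2 := dvd_add hdvd hkm
              have e : ((k' : ℤ) - k) + ((k : ℤ) - ((k % p : ℕ) : ℤ)) =
                  (k' : ℤ) - ((k % p : ℕ) : ℤ) := by ring
              rwa [e] at h2
            have hsub : ({k, k'} : Finset ℕ) ⊆ (Finset.Icc (2 * n + 1) (12 * n)).filter
                (fun m : ℕ => (p : ℤ) ∣ (m : ℤ) - ((k % p : ℕ) : ℤ)) := by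
              intro x hx2
              rw [Finset.mem_insert, Finset.mem_singleton] at hx2
              rw [Finset.mem_filter]
              rcases hx2 with rfl | rfl
              · exact ⟨hk, hkm⟩
              · exact ⟨hk', hk'm⟩
            have hcard := Finset.card_le_card hsub
            rw [Finset.card_pair (Ne.symm hne)] at hcard
            exact hcard)
    refine hfin hp hd ?_
    have hFd : ∀ κ, TA (g κ) + TA (-eL n p κ - g κ - -c.lN) + TA (-eL n p κ - 2 - g κ - -c.ly) =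
        Fd c (eL n p κ) (g κ) := by
      intro κ
      unfold Fd
      have e1 : -eL n p κ - g κ - -c.lN = c.lN - eL n p κ - g κ := by ring
      have e2 : -eL n p κ - 2 - g κ - -c.ly = c.ly - eL n p κ - 2 - g κ := by ring
      rw [e1, e2]
    have hsum : ∑ κ ∈ S, (TA (g κ) + TA (-eL n p κ - g κ - -c.lN) +
        TA (-eL n p κ - 2 - g κ - -c.ly)) =
        ∑ κ ∈ Finset.range p, if 2 ≤ cnt p (2 * n + 1) (12 * n) κ then Fd c (eL n p κ) (g κ)
          else 0 := by
      rw [hS, Finset.sum_filter]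
      exact Finset.sum_congr rfl fun κ _ => by rw [hFd]
    rw [hsum]
    have hs := E2_sum hc hn hp h0 h1 (fun κ => if 2 ≤ cnt p (2 * n + 1) (12 * n) κ then
        Fd c (eL n p κ) (g κ) else 0) (∑ d ∈ Finset.range 12, Fd c c.e0 (d : ℤ))
      (Finset.sum_nonneg fun d _ => Fd_nonneg _ _ _)
      (by
        have hK : 0 ≤ ∑ d ∈ Finset.range 12, Fd c c.e0 (d : ℤ) :=
          Finset.sum_nonneg fun d _ => Fd_nonneg _ _ _
        show (if 2 ≤ cnt p (2 * n + 1) (12 * n) 0 then Fd c (eL n p 0) (g 0) else 0) ≤ _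
        split_ifs
        · obtain ⟨d, hd12, hgd⟩ := hg12 0
          rw [hgd, E4_eL0 @E1_fl @E1_cnt hc hp.pos h0 h1]
          exact Finset.single_le_sum (f := fun d : ℕ => Fd c c.e0 (d : ℤ))
            (fun d _ => Fd_nonneg _ _ _) hd12
        · exact hK)
      (by
        intro r _ hr
        show (if 2 ≤ cnt p (2 * n + 1) (12 * n) r then Fd c (eL n p r) (g r) else 0) ≤ _
        split_ifs with h2
        · have hcost : c.cost (eL n p r) ((cnt p (2 * n + 1) (12 * n) r : ℕ) : ℤ) =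
              c.cost (eL n p r) 2 := by
            unfold Cell.cost
            rw [if_neg hfull, if_neg hfull, if_pos (by exact_mod_cast h2), if_pos le_rfl]
          rw [hcost]
          exact hgood r hr
        · have hcost : c.cost (eL n p r) ((cnt p (2 * n + 1) (12 * n) r : ℕ) : ℤ) = 0 := by
            unfold Cell.cost
            rw [if_neg hfull, if_neg (by
              intro h3
              exact h2 (by exact_mod_cast h3))]
          rw [hcost])
    push_cast at hs ⊢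
    linarith

end

end Pool.Agent.Q203.LQ
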