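import Pool.Agent.H103R2.LM.P
import Pool.Agent.Q203.LQ.PW

/-!
# The sum of the p-adic bounds

`v p` is any family of real numbers that satisfies the local bounds.
-/

open Polynomial Pool.Agent.H337R2 Filter Topology Pool.Agent.LZ

namespace Pool.Agent.Q203.LQ

noncomputable section

set_option autoImplicit false

/-- local estimate in a cell -/
def CellG (c : Cell) (K0 : ℝ) : Prop := ∀ n : ℕ, 1 ≤ n →
    ∀ p : ℕ, p.Prime → 12 * n < p ^ 2 →
    c.u0 * n < p * c.v0 → p * c.v1 ≤ c.u1 * n → ∀ D : ℚ, DetB n p D →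
    ((padicNorm p D : ℚ) : ℝ) ≤ (p : ℝ) ^ ((c.AB.1 : ℝ) * n + c.AB.2 * p + K0)

lemma CellG_mono (c : Cell) (K K' : ℝ) (h : K ≤ K') (hK : CellG c K) : CellG c K' := by
  intro n hn p hp h1 h2 h3 D hD
  refine (hK n hn p hp h1 h2 h3 D hD).trans ?_
  apply Real.rpow_le_rpow_of_exponent_le
  · exact_mod_cast hp.one_lt.le
  · linarith

theorem CellG_all : ∃ K : ℝ, 0 ≤ K ∧ ∀ c ∈ cells, CellG c K := by
  refine PM_bound cells CellG CellG_mono ?_
  intro c hmem
  have h := List.all_eq_true.1 E4_x c hmem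
  rw [Bool.or_eq_true, decide_eq_true_eq] at h
  exact cellB c (List.all_eq_true.1 E5_ok c hmem) h

/-- the bound for the small primes -/
def SmB (n p : ℕ) : ℝ :=
  14 * (n : ℝ) * (if p ^ 2 ≤ 14 * n then 40 * Real.log (14 * n + 1) else 0) + 28 * (n : ℝ) * Real.log p +
      (∑ i ∈ Finset.range (14 * n), Real.log ((padicNorm p ((i.factorial : ℕ) : ℚ) : ℚ) : ℝ) +
       2 * ∑ i ∈ Finset.range (7 * n), Real.log ((padicNorm p ((i.factorial : ℕ) : ℚ) : ℚ) : ℝ))

/-- the family `v` satisfies the local bounds at `n` -/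
def LocB (K : ℝ) (n : ℕ) (v : ℕ → ℝ) : Prop :=
  (∀ p : ℕ, p.Prime → 40 * p ≤ n → v p ≤ SmB n p) ∧
  ∀ c ∈ cells, ∀ p : ℕ, p.Prime → 12 * n < p ^ 2 → c.u0 * n < p * c.v0 → p * c.v1 ≤ c.u1 * n →
    v p ≤ ((c.AB.1 : ℝ) * n + c.AB.2 * p + K) * Real.log p

/-- the sum over the large primes -/
lemma PV_large_sum (L : List Cell) (hchk : PMchk 1 40 L = true)
    (hE5ok : L.all Cell.ok = true)
    (hF4 : ∀ {c : Cell}, c.ok = true → ∀ {n p : ℕ}, 1 ≤ n → 0 < p → c.u0 * n < p * c.v0 →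
      p * c.v1 ≤ c.u1 * n →
      ((∑ i ∈ Finset.range (14 * n), (i / p) + 2 * ∑ i ∈ Finset.range (7 * n), (i / p) : ℕ) : ℤ) =
        c.sf.1 * n + c.sf.2 * p)
    (K : ℝ) (hK : 0 ≤ K) (n : ℕ) (hn : 19200 ≤ n) (v : ℕ → ℝ)
    (hE4 : ∀ c ∈ L, ∀ p : ℕ, p.Prime → 12 * n < p ^ 2 → c.u0 * n < p * c.v0 → p * c.v1 ≤ c.u1 * n →
      v p ≤ ((c.AB.1 : ℝ) * n + c.AB.2 * p + K) * Real.log p) :
    ∑ p ∈ PR (1 / 40) 14 n, (v p + PMw n p) ≤
      (L.map fun c => ∑ p ∈ PR (PMlo c) (PMhi c) n,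
        (((c.AB.1 + c.sf.1 : ℤ) : ℝ) * n + ((c.AB.2 + c.sf.2 : ℤ) : ℝ) * p) * Real.log p).sum +
      K * (Real.log 4 * (15 * n)) := by
  have hch := (PM_chain L 1 40 hchk).2 n
  have e40 : (((1 : ℕ) : ℚ) / ((40 : ℕ) : ℚ)) = 1 / 40 := by norm_num
  rw [e40] at hch
  rw [hch]
  have h1 : (L.map fun c => ∑ p ∈ PR (PMlo c) (PMhi c) n,
      (v p + PMw n p)).sum ≤
      (L.map fun c => (∑ p ∈ PR (PMlo c) (PMhi c) n,
        (((c.AB.1 + c.sf.1 : ℤ) : ℝ) * n + ((c.AB.2 + c.sf.2 : ℤ) : ℝ) * p) * Real.log p) +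
        K * ∑ p ∈ PR (PMlo c) (PMhi c) n, Real.log p).sum := by
    apply List.sum_le_sum
    intro c hc
    have hok : c.ok = true := List.all_eq_true.1 hE5ok c hc
    rw [Finset.mul_sum, ← Finset.sum_add_distrib]
    apply Finset.sum_le_sum
    intro p hp
    obtain ⟨hpp, m1, m2⟩ := PM_mem hok hp
    have hp0 : (0 : ℝ) < p := by exact_mod_cast hpp.pos
    have hlp : 0 ≤ Real.log p := Real.log_nonneg (by exact_mod_cast hpp.one_lt.le)
    -- `n < 40 p`
    have hn40 : n < 40 * p := by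
      have hmem : p ∈ PR (1 / 40) 14 n := by
        by_contra hcon
        have hG := hch (fun r => if r = p then 1 else 0)
        have z1 : ∑ r ∈ PR (1 / 40) 14 n, (if r = p then (1 : ℝ) else 0) = 0 := by
          apply Finset.sum_eq_zero
          intro r hr
          rw [if_neg]
          rintro rfl
          exact hcon hr
        rw [z1] at hG
        have z2 : (1 : ℝ) ≤ ∑ r ∈ PR (PMlo c) (PMhi c) n, (if r = p then (1 : ℝ) else 0) := by
          have := Finset.single_le_sum (f := fun r : ℕ => if r = p then (1 : ℝ) else 0)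
            (fun r _ => by split_ifs <;> norm_num) hp
          simpa using this
        have z3 := List.single_le_sum (l := L.map fun c => ∑ r ∈ PR (PMlo c) (PMhi c) n,
          (if r = p then (1 : ℝ) else 0)) (by
            intro x hx
            obtain ⟨c', -, rfl⟩ := List.mem_map.1 hx
            exact Finset.sum_nonneg fun r _ => by split_ifs <;> norm_num) _
            (List.mem_map.2 ⟨c, hc, rfl⟩)
        linarith
      unfold PR at hmem
      simp only [Finset.mem_filter] at hmem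
      have h3 := hmem.2.2.1
      have : (n : ℚ) < 40 * p := by linarith
      exact_mod_cast this
    have h12 : 12 * n < p ^ 2 := by nlinarith
    have h6 := hE4 c hc p hpp h12 m1 m2
    have h7 : PMw n p = ((c.sf.1 : ℝ) * n + c.sf.2 * p) * Real.log p := by
      unfold PMw
      congr 1
      have h8 := hF4 hok (n := n) (p := p) (by omega) hpp.pos m1 m2
      rw [← Int.cast_natCast, h8]
      push_cast
      ring
    rw [h7]
    push_cast
    nlinarith
  refine h1.trans ?_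
  rw [List.sum_map_add, List.sum_map_mul_left]
  have h2 : (L.map fun c => ∑ p ∈ PR (PMlo c) (PMhi c) n, Real.log (p : ℝ)).sum ≤
      Real.log 4 * (15 * n) := by
    rw [← hch]
    exact PM_theta n _ _
  have h3 := mul_le_mul_of_nonneg_left h2 hK
  linarith

/-- **the p-adic part**, from the results of the other tasks -/
theorem PV_list (L : List Cell) (hLc : L = cells) (hchk : PMchk 1 40 L = true) (K : ℝ) (hK : 0 ≤ K)
    (hE5ok : L.all Cell.ok = true)
    (hF1 : ∀ (lo hi : ℚ), 0 < lo → lo ≤ hi → hi ≤ 14 → ∀ (A B : ℤ),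
      Tendsto (fun n : ℕ => (∑ p ∈ PR lo hi n, ((A : ℝ) * n + B * p) * Real.log p) / (n : ℝ) ^ 2) atTop
        (𝓝 (((A * (hi - lo) + B * (hi ^ 2 - lo ^ 2) / 2 : ℚ)) : ℝ)))
    (hF3 : (L.map PMlim).sum ≤ -1082 / 100)
    (hF4 : ∀ {c : Cell}, c.ok = true → ∀ {n p : ℕ}, 1 ≤ n → 0 < p → c.u0 * n < p * c.v0 →
      p * c.v1 ≤ c.u1 * n →
      ((∑ i ∈ Finset.range (14 * n), (i / p) + 2 * ∑ i ∈ Finset.range (7 * n), (i / p) : ℕ) : ℤ) =
        c.sf.1 * n + c.sf.2 * p)
    (hF5 : ∀ᶠ n : ℕ in atTop,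
      ∑ p ∈ (Finset.range (n + 1)).filter (fun p : ℕ => p.Prime ∧ 40 * p ≤ n),
        (∑ i ∈ Finset.range (14 * n), Real.log ((padicNorm p ((i.factorial : ℕ) : ℚ) : ℚ) : ℝ) +
         2 * ∑ i ∈ Finset.range (7 * n), Real.log ((padicNorm p ((i.factorial : ℕ) : ℚ) : ℚ) : ℝ)) ≤
      - (∑ i ∈ Finset.range (14 * n), Real.log (i.factorial : ℝ) +
         2 * ∑ i ∈ Finset.range (7 * n), Real.log (i.factorial : ℝ)) +
        ∑ p ∈ PR (1 / 40) 14 n,
          ((∑ i ∈ Finset.range (14 * n), (i / p) + 2 * ∑ i ∈ Finset.range (7 * n), (i / p) : ℕ) : ℝ) * Real.log p)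
    (hF6 : ∀ ε : ℝ, 0 < ε → ∀ᶠ n : ℕ in atTop,
      147 * (n : ℝ) ^ 2 * Real.log n + (13347 / 100 - ε) * (n : ℝ) ^ 2 ≤
        ∑ i ∈ Finset.range (14 * n), Real.log (i.factorial : ℝ) +
         2 * ∑ i ∈ Finset.range (7 * n), Real.log (i.factorial : ℝ))
    (hF7 : ∀ ε : ℝ, 0 < ε → ∀ᶠ n : ℕ in atTop,
      14 * (n : ℝ) * ∑ p ∈ (Finset.range (n + 1)).filter (fun p : ℕ => p.Prime ∧ p ^ 2 ≤ 14 * n),
          40 * Real.log (14 * n + 1) +
      28 * (n : ℝ) * ∑ p ∈ (Finset.range (n + 1)).filter (fun p : ℕ => p.Prime ∧ 40 * p ≤ n), Real.log p ≤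
      (28 / 40 + ε) * (n : ℝ) ^ 2) :
    ∀ ε : ℝ, 0 < ε → ∀ᶠ n : ℕ in atTop, ∀ v : ℕ → ℝ, LocB K n v →
    ∑ p ∈ (Finset.range (14 * n + 1)).filter Nat.Prime, v p ≤
    -(147 * (n : ℝ) ^ 2 * Real.log n) - (14359 / 100 - ε) * (n : ℝ) ^ 2 := by
  classical
  intro ε hε
  -- the limit of the sum over the cells
  have hlim : Tendsto (fun n : ℕ => (L.map fun c => ∑ p ∈ PR (PMlo c) (PMhi c) n,
        (((c.AB.1 + c.sf.1 : ℤ) : ℝ) * n + ((c.AB.2 + c.sf.2 : ℤ) : ℝ) * p) * Real.log p).sum /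
        (n : ℝ) ^ 2) atTop (𝓝 (((L.map PMlim).sum : ℚ) : ℝ)) := by
    have h1 := PM_tendsto L (fun c n => (∑ p ∈ PR (PMlo c) (PMhi c) n,
        (((c.AB.1 + c.sf.1 : ℤ) : ℝ) * n + ((c.AB.2 + c.sf.2 : ℤ) : ℝ) * p) * Real.log p) /
        (n : ℝ) ^ 2) (fun c => ((PMlim c : ℚ) : ℝ)) (by
      intro c hc
      have hok : c.ok = true := List.all_eq_true.1 hE5ok c hc
      have hpos : 0 < c.u0 ∧ 0 < c.v0 ∧ 0 < c.v1 ∧ c.u0 * c.v1 < c.u1 * c.v0 := by
        have hok' := hok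
        unfold Cell.ok at hok'
        simp only [Bool.and_eq_true, decide_eq_true_eq] at hok'
        tauto
      obtain ⟨p1, p2, p3, p4⟩ := hpos
      have hlo : 0 < PMlo c := by
        unfold PMlo
        have q1 : (0 : ℚ) < c.u0 := by exact_mod_cast p1
        have q2 : (0 : ℚ) < c.v0 := by exact_mod_cast p2
        positivity
      have hlh : PMlo c ≤ PMhi c := by
        unfold PMlo PMhi
        rw [div_le_div_iff₀ (by exact_mod_cast p2) (by exact_mod_cast p3)]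
        exact_mod_cast p4.le
      have hhi : PMhi c ≤ 14 := by
        have key : ∀ (L' : List Cell) (u v : ℕ), PMchk u v L' = true → ∀ c ∈ L', PMhi c ≤ 14 := by
          intro L'
          induction L' with
          | nil => intro u v _ c hc; exact absurd hc List.not_mem_nil
          | cons d l ih =>
            intro u v h c hc
            simp only [PMchk, Bool.and_eq_true, decide_eq_true_eq] at h
            rcases List.mem_cons.1 hc with rfl | hc
            · exact (PM_chain l c.u1 c.v1 h.2).1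
            · exact ih _ _ h.2 c hc
        exact key L 1 40 hchk c hc
      exact hF1 (PMlo c) (PMhi c) hlo hlh hhi _ _)
    have e1 : (L.map fun c => ((PMlim c : ℚ) : ℝ)).sum = (((L.map PMlim).sum : ℚ) : ℝ) := by
      rw [Rat.cast_list_sum, List.map_map]
      rfl
    rw [e1] at h1
    refine h1.congr fun n => ?_
    rw [div_eq_mul_inv, ← List.sum_map_mul_right]
    simp only [div_eq_mul_inv]
  have hF3' : (((L.map PMlim).sum : ℚ) : ℝ) ≤ -1082 / 100 := by
    have h := (Rat.cast_le (K := ℝ)).2 hF3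
    push_cast at h ⊢
    exact h
  have hε8 : 0 < ε / 8 := by positivity
  have ev1 := PM_ev hlim (ε / 8) hε8
  have ev6 := hF6 (ε / 8) hε8
  have ev7 := hF7 (ε / 8) hε8
  have ev9 : ∀ᶠ n : ℕ in atTop, K * (Real.log 4 * 15) ≤ ε / 8 * n := by
    have := (tendsto_natCast_atTop_atTop (R := ℝ)).const_mul_atTop hε8
    exact this.eventually_ge_atTop _
  filter_upwards [ev1, hF5, ev6, ev7, ev9, eventually_ge_atTop 19200] with n g1 g5 g6 g7 g9 hn v hv
  have hn0 : (0 : ℝ) < n := by exact_mod_cast (by omega : 0 < n)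
  have hn1 : 1 ≤ n := by omega
  rw [← Finset.sum_filter_add_sum_filter_not _ (fun p => 40 * p ≤ n)]
  have e1 : ((Finset.range (14 * n + 1)).filter Nat.Prime).filter (fun p => 40 * p ≤ n) =
      (Finset.range (n + 1)).filter (fun p : ℕ => p.Prime ∧ 40 * p ≤ n) := by
    ext p
    simp only [Finset.mem_filter, Finset.mem_range]
    constructor
    · rintro ⟨⟨h1, h2⟩, h3⟩; exact ⟨by omega, h2, h3⟩
    · rintro ⟨h1, h2, h3⟩; exact ⟨⟨by omega, h2⟩, h3⟩
  have e2 : ((Finset.range (14 * n + 1)).filter Nat.Prime).filter (fun p => ¬ 40 * p ≤ n) =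
      PR (1 / 40) 14 n := by
    ext p
    unfold PR
    simp only [Finset.mem_filter, Finset.mem_range]
    constructor
    · rintro ⟨⟨h1, h2⟩, h3⟩
      refine ⟨by omega, h2, ?_, ?_⟩
      · have : (n : ℚ) < 40 * p := by exact_mod_cast (by omega : n < 40 * p)
        linarith
      · exact_mod_cast (by omega : p ≤ 14 * n)
    · rintro ⟨h1, h2, h3, h4⟩
      have h5 : n < 40 * p := by
        have : (n : ℚ) < 40 * p := by linarith
        exact_mod_cast this
      have h6 : p ≤ 14 * n := by exact_mod_cast h4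
      exact ⟨⟨by omega, h2⟩, by omega⟩
  rw [e1, e2]
  have hsmall : ∑ p ∈ (Finset.range (n + 1)).filter (fun p : ℕ => p.Prime ∧ 40 * p ≤ n),
      v p ≤
      (14 * (n : ℝ) * ∑ p ∈ (Finset.range (n + 1)).filter (fun p : ℕ => p.Prime ∧ p ^ 2 ≤ 14 * n),
          40 * Real.log (14 * n + 1) +
      28 * (n : ℝ) * ∑ p ∈ (Finset.range (n + 1)).filter (fun p : ℕ => p.Prime ∧ 40 * p ≤ n), Real.log p) +
      ∑ p ∈ (Finset.range (n + 1)).filter (fun p : ℕ => p.Prime ∧ 40 * p ≤ n),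
        (∑ i ∈ Finset.range (14 * n), Real.log ((padicNorm p ((i.factorial : ℕ) : ℚ) : ℚ) : ℝ) +
         2 * ∑ i ∈ Finset.range (7 * n), Real.log ((padicNorm p ((i.factorial : ℕ) : ℚ) : ℚ) : ℝ)) := by
    calc _ ≤ ∑ p ∈ (Finset.range (n + 1)).filter (fun p : ℕ => p.Prime ∧ 40 * p ≤ n),
          (14 * (n : ℝ) * (if p ^ 2 ≤ 14 * n then 40 * Real.log (14 * n + 1) else 0) + 28 * (n : ℝ) * Real.log p +
          (∑ i ∈ Finset.range (14 * n), Real.log ((padicNorm p ((i.factorial : ℕ) : ℚ) : ℚ) : ℝ) +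
           2 * ∑ i ∈ Finset.range (7 * n), Real.log ((padicNorm p ((i.factorial : ℕ) : ℚ) : ℚ) : ℝ))) := by
          apply Finset.sum_le_sum
          intro p hp
          rw [Finset.mem_filter] at hp
          exact hv.1 p hp.2.1 hp.2.2
      _ ≤ _ := by
          rw [Finset.sum_add_distrib, Finset.sum_add_distrib, ← Finset.mul_sum, ← Finset.mul_sum]
          apply add_le_add_left
          apply add_le_add_left
          apply mul_le_mul_of_nonneg_left _ (by positivity)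
          rw [← Finset.sum_filter]
          apply Finset.sum_le_sum_of_subset_of_nonneg
          · intro p hp
            simp only [Finset.mem_filter, Finset.mem_range] at hp ⊢
            exact ⟨hp.1.1, hp.1.2.1, hp.2⟩
          · intro p _ _
            have : 0 ≤ Real.log (14 * (n : ℝ) + 1) := Real.log_nonneg (by linarith)
            positivity
  have hlarge := PV_large_sum L hchk hE5ok hF4 K hK n hn v (by rw [hLc]; exact hv.2)
  rw [Finset.sum_add_distrib] at hlarge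
  have hw : ∑ p ∈ PR (1 / 40) 14 n, PMw n p = ∑ p ∈ PR (1 / 40) 14 n,
      ((∑ i ∈ Finset.range (14 * n), (i / p) + 2 * ∑ i ∈ Finset.range (7 * n), (i / p) : ℕ) : ℝ) * Real.log p := rfl
  rw [hw] at hlarge
  have hfin : K * (Real.log 4 * (15 * n)) ≤ ε / 8 * (n : ℝ) ^ 2 := by
    have := mul_le_mul_of_nonneg_right g9 hn0.le
    nlinarith
  have hn2 : (0 : ℝ) < (n : ℝ) ^ 2 := by positivity
  have h10 : ((((L.map PMlim).sum : ℚ) : ℝ) + ε / 8) * (n : ℝ) ^ 2 ≤
      (-1082 / 100 + ε / 8) * (n : ℝ) ^ 2 := by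
    apply mul_le_mul_of_nonneg_right _ hn2.le
    linarith
  have htot : -(147 * (n : ℝ) ^ 2 * Real.log n) + (28 / 40 - 13347 / 100 - 1082 / 100 + ε / 2) * (n : ℝ) ^ 2 ≤
      -(147 * (n : ℝ) ^ 2 * Real.log n) - (14359 / 100 - ε) * (n : ℝ) ^ 2 := by
    have : (28 / 40 - 13347 / 100 - 1082 / 100 + ε / 2) * (n : ℝ) ^ 2 ≤ -(14359 / 100 - ε) * (n : ℝ) ^ 2 := by
      apply mul_le_mul_of_nonneg_right _ hn2.le
      linarith
    linarith
  refine le_trans ?_ htot
  linarith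



/-- the p-adic part -/
theorem PV_main (K : ℝ) (hK : 0 ≤ K) (ε : ℝ) (hε : 0 < ε) : ∀ᶠ n : ℕ in atTop, ∀ v : ℕ → ℝ, LocB K n v →
    ∑ p ∈ (Finset.range (14 * n + 1)).filter Nat.Prime, v p ≤
    -(147 * (n : ℝ) ^ 2 * Real.log n) - (14359 / 100 - ε) * (n : ℝ) ^ 2 :=
  PV_list cells rfl PMchk_cells K hK E5_ok F1_lin F3_total @F4_sf F5_fact F6_superfac F7_small ε hε

end

end Pool.Agent.Q203.LQ
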