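import Pool.Agent.H103R2.LM.M
import Pool.Agent.Y801.Z5S.Interp
import Pool.Agent.Q203.LQ.Deg
import Pool.Agent.Q203.LQ.PV

/-!
# Local bounds for `(7 n)! q ^ (7 n) DD n (-a / d) (-b / d)`

`|d| = q ∏_{p ∈ B} p` with primes `p` of `B` between `n` and `3 n`. The denominator of the point only costs
`q ^ (7 n)`.
-/

open Polynomial Pool.Agent.H337R2 Filter Topology Pool.Agent.LZ Pool.Agent.LM

namespace Pool.Agent.Q203.LQ

noncomputable section

set_option autoImplicit false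

lemma norm_prod_one (p : ℕ) [hp : Fact p.Prime] (B : Finset ℕ) (hB : ∀ r ∈ B, r.Prime) (hpB : p ∉ B) :
    padicNorm p ((∏ r ∈ B, r : ℕ) : ℚ) = 1 := by
  rw [padicNorm.nat_eq_one_iff]
  intro hdvd
  rw [Prime.dvd_finsetProd_iff (Nat.prime_iff.1 hp.out)] at hdvd
  obtain ⟨r, hr, hpr⟩ := hdvd
  rw [Nat.prime_dvd_prime_iff_eq hp.out (hB r hr)] at hpr
  rw [hpr] at hpB
  exact hpB hr

/-- for every prime the number `z` is bounded by a value of the determinant at a point where the local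
bounds hold -/
theorem loc_point (n : ℕ) (a b : ℤ) (d q : ℕ) (hd : 0 < d) (B : Finset ℕ) (hB : ∀ r ∈ B, r.Prime)
    (hdq : d = q * ∏ r ∈ B, r) (p : ℕ) [hp : Fact p.Prime] :
    ∃ α β : ℚ, ((QI 1 α ∧ QI 1 β) ∨ (p ∈ B ∧ padicNorm p α ≤ (p : ℚ) ^ 3 ∧ padicNorm p β ≤ (p : ℚ))) ∧
      (p ∉ B → QI 1 α ∧ QI 1 β) ∧
      padicNorm p (((7 * n).factorial : ℚ) * (q : ℚ) ^ (7 * n) * DD n ((a : ℚ) / d) ((b : ℚ) / d)) ≤
        padicNorm p (DD n α β) := by
  obtain ⟨P, hPd, hPe⟩ := det_poly n (a : ℚ) (b : ℚ)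
  have hdQ : (d : ℚ) ≠ 0 := by exact_mod_cast hd.ne'
  have hpQ : (p : ℚ) ≠ 0 := by exact_mod_cast hp.out.ne_zero
  have hprod0 : ∏ r ∈ B, r ≠ 0 := Finset.prod_ne_zero_iff.2 fun r hr => (hB r hr).ne_zero
  have hprodQ : ((∏ r ∈ B, r : ℕ) : ℚ) ≠ 0 := by exact_mod_cast hprod0
  have hq0 : q ≠ 0 := by
    rintro rfl
    rw [zero_mul] at hdq
    omega
  have hqQ : (q : ℚ) ≠ 0 := by exact_mod_cast hq0
  have hx : P.eval ((d : ℚ)⁻¹) = DD n ((a : ℚ) / d) ((b : ℚ) / d) := by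
    rw [hPe, div_eq_mul_inv, div_eq_mul_inv]
  by_cases hpB : p ∈ B
  · have hres := Pool.Agent.Y801.Z5S.interp (p := p) (P.comp (C ((p : ℚ)⁻¹) * X)) (7 * n) (by
      refine (Polynomial.natDegree_comp_le).trans ?_
      have h1 : (C ((p : ℚ)⁻¹) * X : ℚ[X]).natDegree ≤ 1 :=
        (Polynomial.natDegree_C_mul_le _ _).trans Polynomial.natDegree_X_le
      calc P.natDegree * (C ((p : ℚ)⁻¹) * X : ℚ[X]).natDegree ≤ P.natDegree * 1 := Nat.mul_le_mul_left _ h1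
        _ ≤ 7 * n := by omega) (q : ℚ) ((p : ℚ) * (d : ℚ)⁻¹) (padicNorm.of_nat q) (by
      have e1 : (q : ℚ) * ((p : ℚ) * (d : ℚ)⁻¹) = 1 / ((∏ r ∈ B.erase p, r : ℕ) : ℚ) := by
        have h1 : ∏ r ∈ B, r = p * ∏ r ∈ B.erase p, r := by
          rw [← Finset.mul_prod_erase B (fun r => r) hpB]
        have h2 : ((∏ r ∈ B.erase p, r : ℕ) : ℚ) ≠ 0 := by
          have : ∏ r ∈ B.erase p, r ≠ 0 :=
            Finset.prod_ne_zero_iff.2 fun r hr => (hB r (Finset.mem_of_mem_erase hr)).ne_zero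
          exact_mod_cast this
        rw [hdq, h1]
        generalize (∏ r ∈ B.erase p, r : ℕ) = R at h2
        push_cast
        field_simp
      rw [e1, padicNorm.div, norm_prod_one p (B.erase p) (fun r hr => hB r (Finset.mem_of_mem_erase hr))
        (Finset.notMem_erase p B)]
      simp)
    obtain ⟨j, hj⟩ := hres
    have e2 : (P.comp (C ((p : ℚ)⁻¹) * X)).eval ((p : ℚ) * (d : ℚ)⁻¹) = DD n ((a : ℚ) / d) ((b : ℚ) / d) := by
      rw [Polynomial.eval_comp, Polynomial.eval_mul, Polynomial.eval_C, Polynomial.eval_X, ← mul_assoc,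
        inv_mul_cancel₀ hpQ, one_mul, hx]
    have e3 : (P.comp (C ((p : ℚ)⁻¹) * X)).eval (j : ℚ) =
        DD n ((a : ℚ) * (j : ℚ) / p) ((b : ℚ) * (j : ℚ) / p) := by
      rw [Polynomial.eval_comp, Polynomial.eval_mul, Polynomial.eval_C, Polynomial.eval_X, hPe]
      congr 1
      · rw [div_eq_mul_inv]; ring
      · rw [div_eq_mul_inv]; ring
    rw [e2, e3] at hj
    have hnp : ∀ c : ℤ, padicNorm p ((c : ℚ) * (j : ℚ) / p) ≤ p := by
      intro c
      rw [padicNorm.div, padicNorm.padicNorm_p_of_prime, div_inv_eq_mul]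
      have h1 := padicNorm.of_int (p := p) (c * j)
      push_cast at h1
      have hp0 : (0 : ℚ) ≤ p := Nat.cast_nonneg p
      calc _ ≤ 1 * (p : ℚ) := mul_le_mul_of_nonneg_right h1 hp0
        _ = p := one_mul _
    refine ⟨_, _, Or.inr ⟨hpB, (hnp a).trans ?_, hnp b⟩, fun h => absurd hpB h, hj⟩
    have hp1 : (1 : ℚ) ≤ p := by exact_mod_cast hp.out.one_lt.le
    calc (p : ℚ) = (p : ℚ) ^ 1 := (pow_one _).symm
      _ ≤ (p : ℚ) ^ 3 := pow_le_pow_right₀ hp1 (by norm_num)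
  · have hres := Pool.Agent.Y801.Z5S.interp (p := p) P (7 * n) hPd (q : ℚ) ((d : ℚ)⁻¹) (padicNorm.of_nat q) (by
      have e1 : (q : ℚ) * (d : ℚ)⁻¹ = 1 / ((∏ r ∈ B, r : ℕ) : ℚ) := by
        rw [hdq]
        push_cast at hprodQ ⊢
        field_simp
      rw [e1, padicNorm.div, norm_prod_one p B hB hpB]
      simp)
    obtain ⟨j, hj⟩ := hres
    rw [hx, hPe] at hj
    have hQI : ∀ c : ℤ, QI 1 ((c : ℚ) * (j : ℚ)) := fun c => ⟨one_pos, c * j, by push_cast; ring⟩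
    exact ⟨_, _, Or.inl ⟨hQI a, hQI b⟩, fun _ => ⟨hQI a, hQI b⟩, hj⟩

/-- the local bounds for `log |z|_p` -/
theorem loc_bounds (K : ℝ) (hcell : ∀ c ∈ cells, CellG c K) (n : ℕ) (hn : 12 ≤ n) (a b : ℤ) (d q : ℕ)
    (hd : 0 < d) (B : Finset ℕ) (hB : ∀ r ∈ B, r.Prime ∧ n < r ∧ r < 3 * n)
    (hdq : d = q * ∏ r ∈ B, r)
    (hz : ((7 * n).factorial : ℚ) * (q : ℚ) ^ (7 * n) * DD n ((a : ℚ) / d) ((b : ℚ) / d) ≠ 0) :
    LocB K n (fun p => Real.log ((padicNorm p (((7 * n).factorial : ℚ) * (q : ℚ) ^ (7 * n) *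
      DD n ((a : ℚ) / d) ((b : ℚ) / d)) : ℚ) : ℝ)) ∧
    ∀ p : ℕ, p.Prime → 14 * n < p → padicNorm p (((7 * n).factorial : ℚ) * (q : ℚ) ^ (7 * n) *
      DD n ((a : ℚ) / d) ((b : ℚ) / d)) ≤ 1 := by
  set z : ℚ := ((7 * n).factorial : ℚ) * (q : ℚ) ^ (7 * n) * DD n ((a : ℚ) / d) ((b : ℚ) / d) with hzdef
  have hn1 : 1 ≤ n := by omega
  refine ⟨⟨?_, ?_⟩, ?_⟩
  · intro p hp h40
    have hf : Fact p.Prime := ⟨hp⟩
    obtain ⟨α, β, -, h2, h3⟩ := loc_point n a b d q hd B (fun r hr => (hB r hr).1) hdq p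
    have hpB : p ∉ B := fun h => by have := (hB p h).2.1; omega
    obtain ⟨hα, hβ⟩ := h2 hpB
    rw [← hzdef] at h3
    have hzp := PM_z_pos p hp z hz
    have h3R : ((padicNorm p z : ℚ) : ℝ) ≤ ((padicNorm p (DD n α β) : ℚ) : ℝ) := by exact_mod_cast h3
    have hD0 : DD n α β ≠ 0 := by
      intro h0
      rw [h0, padicNorm.zero] at h3R
      push_cast at h3R
      linarith
    have e1 : ((1 : ℕ) : ℚ) ^ (14 * n) * DD n α β = DD n α β := by simp
    have h4 := PM_small @D4_small_med @D4_small_crude n p hn1 hp 1 α β hα hβ (by rw [e1]; exact hD0)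
    rw [e1] at h4
    exact (Real.log_le_log hzp h3R).trans h4
  · intro c hc p hp h12 m1 m2
    have hf : Fact p.Prime := ⟨hp⟩
    obtain ⟨α, β, h1, -, h3⟩ := loc_point n a b d q hd B (fun r hr => (hB r hr).1) hdq p
    rw [← hzdef] at h3
    have hDet : DetB n p (DD n α β) := by
      rcases h1 with ⟨hα, hβ⟩ | ⟨hpB, hα, hβ⟩
      · exact DetB_int hn1 h12 α β hα hβ
      · exact DetB_w hn1 h12 (by have := (hB p hpB).2.2; omega) α β hα hβ
    have h5 := hcell c hc n hn1 p hp h12 m1 m2 _ hDet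
    have hzp := PM_z_pos p hp z hz
    have h3R : ((padicNorm p z : ℚ) : ℝ) ≤ ((padicNorm p (DD n α β) : ℚ) : ℝ) := by exact_mod_cast h3
    have hp0 : (0 : ℝ) < p := by exact_mod_cast hp.pos
    have h6 := Real.log_le_log hzp (h3R.trans h5)
    rwa [Real.log_rpow hp0] at h6
  · intro p hp h14
    have hf : Fact p.Prime := ⟨hp⟩
    obtain ⟨α, β, -, h2, h3⟩ := loc_point n a b d q hd B (fun r hr => (hB r hr).1) hdq p
    have hpB : p ∉ B := fun h => by have := (hB p h).2.2; omega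
    obtain ⟨hα, hβ⟩ := h2 hpB
    rw [← hzdef] at h3
    refine h3.trans ?_
    have h4 := P_large 1 α β hα hβ n hn1 p hp h14
    have e1 : ((1 : ℕ) : ℚ) ^ (14 * n) * DD n α β = DD n α β := by simp
    rwa [e1] at h4

end

end Pool.Agent.Q203.LQ
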