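import Pool.Agent.Q203.LQ.Arch
import Pool.Agent.Q203.LQ.Loc
import Pool.Agent.Q203.ZM.Sel

/-!
# A measure of linear independence for `1, ζ(2), ζ(3)` with an explicit exponent
-/

open Polynomial Pool.Agent.H337R2 Filter Topology Pool.Agent.LZ Pool.Agent.LM

namespace Pool.Agent.Q203.LQ

noncomputable section

set_option autoImplicit false

/-- a multiple of `q` by a power of two between `H / 2` and `H` -/
lemma two_pow_mul (q : ℕ) (hq : 0 < q) (H : ℝ) (hqH : (q : ℝ) ≤ H) :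
    ∃ k : ℕ, ((q * 2 ^ k : ℕ) : ℝ) ≤ H ∧ H < 2 * ((q * 2 ^ k : ℕ) : ℝ) := by
  have hq0 : (0 : ℝ) < q := by exact_mod_cast hq
  obtain ⟨k, h1, h2⟩ := exists_nat_pow_near (x := H / q) (y := (2 : ℝ)) (by rwa [le_div_iff₀ hq0, one_mul])
    (by norm_num)
  refine ⟨k, ?_, ?_⟩
  · rw [le_div_iff₀ hq0] at h1
    push_cast
    linarith
  · rw [div_lt_iff₀ hq0, pow_succ] at h2
    push_cast
    linarith

/-- `log ((7 n)!)` is `o (n²)` -/
lemma fac_small (ε : ℝ) (hε : 0 < ε) : ∀ᶠ n : ℕ in atTop,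
    Real.log ((7 * n).factorial : ℝ) + 14 * Real.log 2 * n ≤ ε * (n : ℝ) ^ 2 := by
  filter_upwards [log_small 7 (ε / 2) (by positivity), log_small 1 (ε / 2) (by positivity),
    eventually_ge_atTop 1, tendsto_natCast_atTop_atTop.eventually_ge_atTop ((14 * Real.log 2 + 7 * Real.log 7) / (ε / 2))]
    with n h1 _ h2 h3
  have hn0 : (0 : ℝ) < n := by exact_mod_cast h2
  have h4 : Real.log ((7 * n).factorial : ℝ) ≤ (7 * n) * Real.log (7 * n) := by
    have e : ((7 * n).factorial : ℝ) ≤ ((7 * n : ℕ) : ℝ) ^ (7 * n) := by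
      exact_mod_cast Nat.factorial_le_pow (7 * n)
    have h5 := Real.log_le_log (by exact_mod_cast Nat.factorial_pos (7 * n)) e
    rw [Real.log_pow] at h5
    push_cast at h5
    exact h5
  rw [Real.log_mul (by norm_num) hn0.ne'] at h4
  rw [div_le_iff₀ (by positivity)] at h3
  have h6 := mul_le_mul_of_nonneg_right h1 hn0.le
  have h7 := mul_le_mul_of_nonneg_right h3 hn0.le
  nlinarith

theorem large : ∃ H0 : ℝ, 1 ≤ H0 ∧ ∀ a b d : ℤ, ∀ H : ℝ, H0 ≤ H → d ≠ 0 → |(b : ℝ)| ≤ H → |(d : ℝ)| ≤ H →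
    1 / H ^ 85 ≤ |(a : ℝ) + b * zr 2 + d * zr 3| := by
  obtain ⟨p0, hp0⟩ := HU_nonvanish
  obtain ⟨K, hK, hcell⟩ := CellG_all
  have hev := ((AU_eps (1 / 1000) (by norm_num)).and (PV_main K hK (1 / 1000) (by norm_num))).and
    (fac_small (1 / 1000) (by norm_num))
  rw [eventually_atTop] at hev
  obtain ⟨n1, hn1⟩ := hev
  have hsel := Pool.Agent.Q203.ZM.select 1 le_rfl (0 : ZMod 1) (isUnit_of_subsingleton _) 1 7 (897 / 200)
    (1566 / 1000) 3 (1 / 10000) (by norm_num) (by norm_num) (by norm_num) (by norm_num)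
    (by rw [Nat.totient_one]; norm_num) (by norm_num) (by rw [Nat.totient_one]; norm_num) (n1 + p0 + 20)
  rw [eventually_atTop] at hsel
  obtain ⟨q1, hq1⟩ := hsel
  refine ⟨2 * q1 + 2, by have : (0 : ℝ) ≤ q1 := Nat.cast_nonneg _; linarith, ?_⟩
  intro a b d H hH hd hb hdH
  by_contra hlt
  push Not at hlt
  have hq1r : (0 : ℝ) ≤ q1 := Nat.cast_nonneg _
  have hH1 : 1 ≤ H := by linarith
  have hH0 : 0 < H := by linarith
  set L : ℝ := Real.log H with hL
  set q : ℕ := d.natAbs with hq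
  have hq0 : 0 < q := Int.natAbs_pos.2 hd
  have hqr : (q : ℝ) = |(d : ℝ)| := by
    rw [hq, Nat.cast_natAbs]; push_cast; rfl
  have hqpos : (0 : ℝ) < q := by exact_mod_cast hq0
  have hqge : (1 : ℝ) ≤ q := by exact_mod_cast hq0
  have hqH : (q : ℝ) ≤ H := by rw [hqr]; exact hdH
  obtain ⟨k, hk1, hk2⟩ := two_pow_mul q hq0 H hqH
  set Q : ℕ := q * 2 ^ k with hQ
  have hQ0 : 0 < Q := by positivity
  have hQr : (0 : ℝ) < Q := by exact_mod_cast hQ0
  have hQq1 : q1 ≤ Q := by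
    have : (q1 : ℝ) ≤ Q := by linarith
    exact_mod_cast this
  obtain ⟨n, Q', B, hnp, -, hnn0, hnL, hnd, hB, hQQ, hcost⟩ := hq1 Q hQq1
  simp only [pow_one] at hnd hQQ
  have hF : Fact n.Prime := ⟨hnp⟩
  obtain ⟨⟨hA, hP⟩, hfac⟩ := hn1 n (by omega)
  have hn12 : 12 ≤ n := by omega
  have hn0 : (0 : ℝ) < n := by exact_mod_cast hnp.pos
  have hlogQ : Real.log Q ≤ L := Real.log_le_log hQr hk1
  -- the primes of `B` divide `q`
  have hBq : ∏ p ∈ B, p ∣ q := by
    have h1 : ∏ p ∈ B, p ∣ q * 2 ^ k := ⟨Q', by rw [← hQ, hQQ, mul_comm]⟩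
    refine Nat.Coprime.dvd_of_dvd_mul_right ?_ h1
    apply Nat.Coprime.prod_left
    intro p hp
    apply Nat.Coprime.pow_right
    rw [Nat.coprime_primes (hB p hp).1 Nat.prime_two]
    have := (hB p hp).2.1
    omega
  obtain ⟨q', hq'⟩ := hBq
  rw [mul_comm] at hq'
  have hprod0 : 0 < ∏ p ∈ B, p := Finset.prod_pos fun p hp => (hB p hp).1.pos
  have hq'0 : 0 < q' := by
    rcases Nat.eq_zero_or_pos q' with h | h
    · rw [h, zero_mul] at hq'
      omega
    · exact h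
  have hQ' : Q' = q' * 2 ^ k := by
    have h1 : Q' * ∏ p ∈ B, p = (q' * 2 ^ k) * ∏ p ∈ B, p := by
      rw [← hQQ, hQ, hq']
      ring
    exact Nat.eq_of_mul_eq_mul_right hprod0 h1
  -- the point
  have hdr : (d : ℝ) ≠ 0 := by exact_mod_cast hd
  have hdQ : (d : ℚ) ≠ 0 := by exact_mod_cast hd
  set a' : ℤ := -(a * d.sign) with ha'
  set b' : ℤ := -(b * d.sign) with hb'
  have hqs : (q : ℚ) = d * d.sign := by
    rw [hq, ← Int.cast_mul, Int.mul_sign_self, Int.cast_natCast]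
  have hsgn : ((d.sign : ℤ) : ℚ) ≠ 0 := by
    have : d.sign ≠ 0 := by
      rw [Ne, Int.sign_eq_zero_iff_zero]
      exact hd
    exact_mod_cast this
  have hα : (a' : ℚ) / q = -(a : ℚ) / d := by
    rw [ha', hqs]
    push_cast
    field_simp
  have hβ : (b' : ℚ) / q = -(b : ℚ) / d := by
    rw [hb', hqs]
    push_cast
    field_simp
  set α : ℚ := (a' : ℚ) / q with hαd
  set β : ℚ := (b' : ℚ) / q with hβd
  -- nonvanishing
  have hnq : ¬ n ∣ q := fun h => hnd (h.trans (Dvd.intro _ rfl))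
  have hnq1 : padicNorm n (q : ℚ) = 1 := (padicNorm.nat_eq_one_iff q).2 hnq
  have hpα : padicNorm n α ≤ 1 := by
    rw [hαd, padicNorm.div, hnq1, div_one]
    exact padicNorm.of_int a'
  have hpβ : padicNorm n β ≤ 1 := by
    rw [hβd, padicNorm.div, hnq1, div_one]
    exact padicNorm.of_int b'
  have hne := hp0 n (by omega) hnp α β hpα hpβ
  -- the archimedean part
  have het : et α β = ((a : ℝ) + b * zr 2 + d * zr 3) / d := by
    unfold et
    rw [hα, hβ]
    push_cast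
    field_simp
    ring
  have heta : |et α β| ≤ Real.exp (-((217 / 4 + 1 / 1000) * n)) := by
    rw [het, abs_div]
    have e1 : |(a : ℝ) + b * zr 2 + d * zr 3| / |(d : ℝ)| ≤ |(a : ℝ) + b * zr 2 + d * zr 3| := by
      apply div_le_self (abs_nonneg _)
      rw [← hqr]; exact hqge
    refine e1.trans (hlt.le.trans ?_)
    have e2 : 1 / H ^ 85 = Real.exp (-(85 * L)) := by
      rw [Real.exp_neg, one_div, hL]
      congr 1
      rw [show (85 : ℝ) * Real.log H = ((85 : ℕ) : ℝ) * Real.log H by norm_num, ← Real.log_pow,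
        Real.exp_log (by positivity)]
    rw [e2]
    apply Real.exp_le_exp.2
    have e3 : (n : ℝ) ≤ 1566 / 1000 * L := hnL.trans (mul_le_mul_of_nonneg_left hlogQ (by norm_num))
    linarith
  have hArch := hA α β heta hne
  -- the local part
  have hq'Q : (q' : ℚ) ≠ 0 := by exact_mod_cast hq'0.ne'
  set z : ℚ := ((7 * n).factorial : ℚ) * (q' : ℚ) ^ (7 * n) * DD n α β with hz
  have hz0 : z ≠ 0 := mul_ne_zero (mul_ne_zero (by exact_mod_cast (Nat.factorial_pos (7 * n)).ne')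
    (pow_ne_zero _ hq'Q)) hne
  have hB3 : ∀ r ∈ B, r.Prime ∧ n < r ∧ r < 3 * n := by
    intro r hr
    refine ⟨(hB r hr).1, (hB r hr).2.1, ?_⟩
    have := (hB r hr).2.2
    exact_mod_cast this
  obtain ⟨hloc, hbig⟩ := loc_bounds K hcell n hn12 a' b' q q' hq0 B hB3 hq' hz0
  rw [← hαd, ← hβd, ← hz] at hloc hbig
  have hsum := hP _ hloc
  have hS : ∀ p ∈ (Finset.range (14 * n + 1)).filter Nat.Prime, p.Prime := fun p hp =>
    (Finset.mem_filter.1 hp).2
  have hprod := Pool.Agent.H336R2.HD.A5_prod_formula z hz0 ((Finset.range (14 * n + 1)).filter Nat.Prime) hS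
    (fun p => ((padicNorm p z : ℚ) : ℝ)) (fun p _ => le_rfl) (fun p hp hpS => by
      apply hbig p hp
      by_contra hlt
      apply hpS
      rw [Finset.mem_filter, Finset.mem_range]
      exact ⟨by omega, hp⟩)
  have hpos : ∀ p ∈ (Finset.range (14 * n + 1)).filter Nat.Prime, ((padicNorm p z : ℚ) : ℝ) ≠ 0 :=
    fun p hp => (PM_z_pos p (hS p hp) z hz0).ne'
  have hzabs : 0 < |(z : ℝ)| := abs_pos.2 (by exact_mod_cast hz0)
  have hlog := Real.log_nonneg hprod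
  rw [Real.log_mul hzabs.ne' (Finset.prod_ne_zero_iff.2 hpos), Real.log_prod (fun p hp => hpos p hp)] at hlog
  have hq'r : (0 : ℝ) < q' := by exact_mod_cast hq'0
  have hfacR : (0 : ℝ) < ((7 * n).factorial : ℝ) := by exact_mod_cast Nat.factorial_pos (7 * n)
  have hzlog : Real.log |(z : ℝ)| = Real.log ((7 * n).factorial : ℝ) + 7 * n * Real.log q' +
      Real.log |((DD n α β : ℚ) : ℝ)| := by
    rw [hz]
    push_cast
    have hDr : |((DD n α β : ℚ) : ℝ)| ≠ 0 := (abs_pos.2 (by exact_mod_cast hne)).ne'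
    rw [abs_mul, abs_of_pos (by positivity : (0 : ℝ) < ((7 * n).factorial : ℝ) * (q' : ℝ) ^ (7 * n)),
      Real.log_mul (by positivity) hDr, Real.log_mul (by positivity) (by positivity), Real.log_pow]
    push_cast
    ring
  rw [hzlog] at hlog
  -- the cost of the denominator and of `β`
  have hbb : Real.log q' + Real.log (1 + |(β : ℝ)|) ≤ Real.log Q' + 2 * Real.log 2 := by
    have c1 : (1 : ℝ) + |(β : ℝ)| ≤ 2 * H / q := by
      rw [hβ]
      push_cast
      rw [abs_div, abs_neg, ← hqr, le_div_iff₀ hqpos, add_mul, div_mul_cancel₀ _ hqpos.ne']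
      linarith
    have c2 : (q' : ℝ) * (1 + |(β : ℝ)|) ≤ 4 * Q' := by
      have hPr : (0 : ℝ) < ((∏ p ∈ B, p : ℕ) : ℝ) := by exact_mod_cast hprod0
      have hqq' : (q : ℝ) = q' * ((∏ p ∈ B, p : ℕ) : ℝ) := by
        have : ((q : ℕ) : ℝ) = ((q' * ∏ p ∈ B, p : ℕ) : ℝ) := by rw [hq']
        rw [this, Nat.cast_mul]
      have hQQ' : (Q : ℝ) = Q' * ((∏ p ∈ B, p : ℕ) : ℝ) := by
        have : ((Q : ℕ) : ℝ) = ((Q' * ∏ p ∈ B, p : ℕ) : ℝ) := by rw [← hQQ]
        rw [this, Nat.cast_mul]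
      calc (q' : ℝ) * (1 + |(β : ℝ)|) ≤ q' * (2 * H / q) := mul_le_mul_of_nonneg_left c1 hq'r.le
        _ = 2 * H / ((∏ p ∈ B, p : ℕ) : ℝ) := by
            rw [hqq']
            field_simp
        _ ≤ 2 * (2 * Q) / ((∏ p ∈ B, p : ℕ) : ℝ) := by
            apply div_le_div_of_nonneg_right _ hPr.le
            linarith
        _ = 4 * Q' := by
            rw [hQQ']
            field_simp
            ring
    have hQ'0 : (0 : ℝ) < Q' := by
      rw [hQ']
      positivity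
    have h1b : (0 : ℝ) < 1 + |(β : ℝ)| := by linarith [abs_nonneg (β : ℝ)]
    have c3 := Real.log_le_log (by positivity) c2
    rw [Real.log_mul hq'r.ne' h1b.ne', Real.log_mul (by norm_num) hQ'0.ne',
      show (4 : ℝ) = 2 ^ 2 by norm_num, Real.log_pow] at c3
    push_cast at c3
    linarith
  have hc1 := mul_le_mul_of_nonneg_left hbb (by positivity : (0 : ℝ) ≤ 7 * n)
  have hc2 := mul_le_mul_of_nonneg_right hcost hn0.le
  nlinarith [mul_pos hn0 hn0]

/-- **measure for `1, ζ(2), ζ(3)`** -/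
theorem measure : ∃ c : ℝ, 0 < c ∧ ∀ a b d : ℤ, ∀ H : ℝ, 1 ≤ H → d ≠ 0 → |(b : ℝ)| ≤ H → |(d : ℝ)| ≤ H →
    c / H ^ 85 ≤ |(a : ℝ) + b * zr 2 + d * zr 3| := by
  obtain ⟨H0, hH0, h⟩ := large
  set N : ℕ := ⌈H0⌉₊ with hN
  have hN1 : H0 ≤ N := Nat.le_ceil _
  have hNpos : (0 : ℝ) < N := by linarith
  refine ⟨1 / ((N : ℝ) ^ 85 * N), by positivity, ?_⟩
  intro a b d H hH hd hb hdH
  have hH0' : 0 < H := by linarith
  have hNz : (N : ℤ) ≠ 0 := by
    have : (N : ℝ) ≠ 0 := hNpos.ne'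
    exact_mod_cast this
  have h1 := h (N * a) (N * b) (N * d) (N * H) (by nlinarith) (mul_ne_zero hNz hd)
    (by push_cast; rw [abs_mul, abs_of_pos hNpos]; exact mul_le_mul_of_nonneg_left hb hNpos.le)
    (by push_cast; rw [abs_mul, abs_of_pos hNpos]; exact mul_le_mul_of_nonneg_left hdH hNpos.le)
  have e1 : ((((N : ℤ) * a : ℤ) : ℝ)) + (((N : ℤ) * b : ℤ) : ℝ) * zr 2 + (((N : ℤ) * d : ℤ) : ℝ) * zr 3 =
      N * ((a : ℝ) + b * zr 2 + d * zr 3) := by
    push_cast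
    ring
  rw [e1, abs_mul, abs_of_pos hNpos, mul_pow] at h1
  rw [div_div, div_le_iff₀ (by positivity)]
  rw [div_le_iff₀ (by positivity)] at h1
  calc (1 : ℝ) ≤ N * |(a : ℝ) + b * zr 2 + d * zr 3| * ((N : ℝ) ^ 85 * H ^ 85) := h1
    _ = _ := by ring

end

end Pool.Agent.Q203.LQ
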